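import Pool.Agent.Results.MP_127ef0_nt.FiveXPlusBLogTime
import Pool.Agent.U513.AP.Sparse

/-!
# The `5x+1` map does not reach `1` in `A log n` steps, near integral polynomials at simultaneous approximations

The starting library bounds the number of the `n ≤ x` which reach `1` within `A log n` steps of the `5x+1` map by `x ^ (η + ε)`,
`η = 0.6509…`. Here: for all points `α` outside of a set of small Hausdorff dimension, NONE of the natural numbers near integral
polynomials at the approximations of `α` with a large denominator reaches `1` within `A log n` steps, for every `A`.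
-/

set_option autoImplicit false

open Finset

namespace Pool.Agent.Results.MP_05966f_nt.Approximations

open Pool.Agent.U513.AP
open Pool.Agent.Results.MP_127ef0_nt.FiveXPlusBLogTime (T IsEta Hitting)

/-- There is `η` with `0.6509 < η < 0.65095`, `2 ^ η = 1 + 5 ^ (η - 1)` such that the properties that the orbit of `n` under the `5x+1` map
`T 1` does not contain `1` at any time `k ≤ A log n`, `A` a natural number, hold at approximations outside of exceptional sets of
exponent `η`. -/
theorem result : ∃ η : ℝ, IsEta η ∧ AtApproximations (ι := ℕ) η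
    (fun A n => ∀ k : ℕ, (T 1)^[k] (n : ℤ) = 1 → (A : ℝ) * Real.log n < k) := by
  classical
  obtain ⟨⟨η, hη⟩, h0⟩ := Pool.Agent.Results.MP_127ef0_nt.FiveXPlusBLogTime.result
  have h1 := hη.1
  refine ⟨η, hη, sparse_law (by linarith) _ fun A ε hε => ?_⟩
  obtain ⟨X₁, hX₁⟩ := ((h0 η hη 1 odd_one (by norm_num)).2 {1} (Set.finite_singleton 1)).1 A ε hε
  obtain ⟨X₀, hX₀⟩ := exists_nat_ge X₁
  refine ⟨1, X₀, fun X hX => ?_⟩
  rw [one_mul]
  have hXr : (X₀ : ℝ) ≤ X := by exact_mod_cast hX
  refine le_trans ?_ (hX₁ X (hX₀.trans hXr))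
  have hf : (Hitting 1 {1} A X).Finite := by
    refine (Set.finite_Icc (-(X : ℤ)) X).subset ?_
    rintro n ⟨-, hn, -⟩
    rw [Set.mem_Icc, ← abs_le]
    exact_mod_cast hn
  refine Nat.cast_le.2 (Set.ncard_le_ncard_of_injOn (fun n : ℕ => (n : ℤ)) ?_ (Nat.cast_injective (R := ℤ)).injOn hf)
  rintro n ⟨hn1, hn2, hn3⟩
  push Not at hn3
  obtain ⟨k, hk, hle⟩ := hn3
  have habs : |((n : ℤ) : ℝ)| = n := by
    rw [Int.cast_natCast]
    exact abs_of_nonneg (Nat.cast_nonneg _)
  refine ⟨by omega, ?_, k, ?_, hk⟩
  · rw [habs]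
    exact_mod_cast hn2
  · rw [habs]
    exact hle

end Pool.Agent.Results.MP_05966f_nt.Approximations
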